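import Mathlib
import Pool.Graph.R_seed8.H365R5.Fin

set_option autoImplicit false

open scoped Manifold ContDiff Topology
open Set Filter Bundle

noncomputable section

namespace Pool.Agent.Helper23.AxA

open Pool.Agent.H365R3 Pool.Agent.H365R4 Pool.Agent.H365R5

/-! ### Periodic points of the linear automorphism -/

theorem FT_iter (n : ℕ) (z : V2) : FT^[n] (E2 z) = E2 (FE^[n] z) := by
  induction n with
  | zero => rfl
  | succ n ih => rw [Function.iterate_succ_apply', Function.iterate_succ_apply', ih, FT_E2]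

/-- The points with coordinates in `(1 / q) ℤ`. -/
def Rq (q : ℕ) : Set T2 := {X | ∃ a b : ℤ, X = E2 ((a : ℝ) / q, (b : ℝ) / q)}

theorem Rq_finite (q : ℕ) (hq : 0 < q) : (Rq q).Finite := by
  refine ((Set.finite_Icc (0 : ℤ) q).prod (Set.finite_Icc (0 : ℤ) q)).image
    (fun p : ℤ × ℤ => E2 ((p.1 : ℝ) / q, (p.2 : ℝ) / q)) |>.subset ?_
  rintro X ⟨a, b, rfl⟩
  have hq' : (q : ℤ) ≠ 0 := by exact_mod_cast hq.ne'
  have hq0 : (0 : ℤ) < q := by exact_mod_cast hq
  have hqr : (q : ℝ) ≠ 0 := by exact_mod_cast hq.ne'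
  refine ⟨(a % q, b % q), ⟨⟨Int.emod_nonneg _ hq', (Int.emod_lt_of_pos _ hq0).le⟩,
    ⟨Int.emod_nonneg _ hq', (Int.emod_lt_of_pos _ hq0).le⟩⟩, ?_⟩
  symm
  rw [E2_eq_iff]
  refine ⟨(a / q, b / q), ?_⟩
  have e1 : (a : ℝ) = (a % q : ℤ) + q * (a / q : ℤ) := by
    have := Int.emod_add_mul_ediv a q
    exact_mod_cast this.symm
  have e2 : (b : ℝ) = (b % q : ℤ) + q * (b / q : ℤ) := by
    have := Int.emod_add_mul_ediv b q
    exact_mod_cast this.symm
  ext
  · simp only [ofZ, Prod.fst_add]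
    rw [e1]
    field_simp
  · simp only [ofZ, Prod.snd_add]
    rw [e2]
    field_simp

theorem Rq_inv (q : ℕ) (hq : 0 < q) {X : T2} (hX : X ∈ Rq q) : FT X ∈ Rq q := by
  obtain ⟨a, b, rfl⟩ := hX
  have hqr : (q : ℝ) ≠ 0 := by exact_mod_cast hq.ne'
  refine ⟨3 * a + b, a, ?_⟩
  rw [FT_E2, FE_apply]
  congr 1
  ext
  · push_cast; field_simp
  · rfl

theorem Rq_per (q : ℕ) (hq : 0 < q) {X : T2} (hX : X ∈ Rq q) : X ∈ Function.periodicPts FT := by
  have h1 : ∀ n : ℕ, FT^[n] X ∈ Rq q := by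
    intro n
    induction n with
    | zero => exact hX
    | succ n ih => rw [Function.iterate_succ_apply']; exact Rq_inv q hq ih
  have : Finite (Rq q) := (Rq_finite q hq).to_subtype
  obtain ⟨m, n, hmn, he⟩ := Finite.exists_ne_map_eq_of_infinite
    (fun n : ℕ => (⟨FT^[n] X, h1 n⟩ : Rq q))
  have he' : FT^[m] X = FT^[n] X := congrArg Subtype.val he
  wlog hlt : m < n generalizing m n with H
  · exact H n m hmn.symm he.symm he'.symm (by omega)
  refine ⟨n - m, by omega, ?_⟩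
  have e1 : FT^[n] X = FT^[m] (FT^[n - m] X) := by
    rw [← Function.iterate_add_apply]; congr 2; omega
  rw [e1] at he'
  exact ((FT.injective.iterate m) he').symm

theorem Rq_dense : Dense {X : T2 | ∃ q : ℕ, 0 < q ∧ X ∈ Rq q} := by
  have h1 : DenseRange (Prod.map (fun r : ℚ => (r : ℝ)) (fun r : ℚ => (r : ℝ))) :=
    Rat.denseRange_cast.prodMap Rat.denseRange_cast
  have h2 : DenseRange (E2 ∘ (Prod.map (fun r : ℚ => (r : ℝ)) (fun r : ℚ => (r : ℝ)))) :=
    (Function.Surjective.denseRange E2_surj).comp h1 E2_cont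
  refine Dense.mono ?_ h2
  rintro X ⟨⟨r, s⟩, rfl⟩
  refine ⟨r.den * s.den, Nat.mul_pos r.den_pos s.den_pos, r.num * s.den, s.num * r.den, ?_⟩
  have hr : (r.den : ℝ) ≠ 0 := by exact_mod_cast r.den_pos.ne'
  have hs : (s.den : ℝ) ≠ 0 := by exact_mod_cast s.den_pos.ne'
  have er : (r : ℝ) = r.num / r.den := by exact_mod_cast (Rat.num_div_den r).symm
  have es : (s : ℝ) = s.num / s.den := by exact_mod_cast (Rat.num_div_den s).symm
  rw [Function.comp_apply]
  congr 1
  ext
  · change (r : ℝ) = _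
    rw [er]; push_cast; field_simp
  · change (s : ℝ) = _
    rw [es]; push_cast; field_simp

theorem FT_per_dense : Dense (Function.periodicPts FT) := by
  refine Dense.mono ?_ Rq_dense
  rintro X ⟨q, hq, hX⟩
  exact Rq_per q hq hX

/-! ### A dense orbit -/

/-- Birkhoff transitivity. -/
theorem exists_dense_orbit {X : Type} [TopologicalSpace X] [BaireSpace X]
    [SecondCountableTopology X] [Nonempty X] (f : X → X) (hf : Continuous f)
    (ht : ∀ U V : Set X, IsOpen U → U.Nonempty → IsOpen V → V.Nonempty →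
      ∃ n : ℕ, ∃ x ∈ U, f^[n] x ∈ V) : ∃ x, Dense (range fun n : ℕ => f^[n] x) := by
  obtain ⟨b, hbc, hbe, hb⟩ := TopologicalSpace.exists_countable_basis X
  have hd : Dense (⋂ U ∈ b, ⋃ n : ℕ, (f^[n]) ⁻¹' U) := by
    refine dense_biInter_of_isOpen ?_ hbc ?_
    · intro U hU
      exact isOpen_iUnion fun n => (hb.isOpen hU).preimage (hf.iterate n)
    · intro U hU
      rw [dense_iff_inter_open]
      intro V hV hVn
      have hUn : U.Nonempty := nonempty_iff_ne_empty.2 fun h => hbe (h ▸ hU)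
      obtain ⟨n, x, hx, hxn⟩ := ht V U hV hVn (hb.isOpen hU) hUn
      exact ⟨x, hx, mem_iUnion.2 ⟨n, hxn⟩⟩
  obtain ⟨x, hx⟩ := hd.nonempty
  refine ⟨x, ?_⟩
  rw [hb.dense_iff]
  intro U hU _
  have h1 := mem_iInter₂.1 hx U hU
  obtain ⟨n, hn⟩ := mem_iUnion.1 h1
  exact ⟨f^[n] x, hn, n, rfl⟩

/-- The expanding eigenvalue. -/
def mu : ℝ := (3 + √13) / 2

theorem mu_sq : mu * mu = 3 * mu + 1 := by
  have h : √13 * √13 = 13 := Real.mul_self_sqrt (by norm_num)
  unfold mu
  linear_combination h / 4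

theorem mu_gt : 1 < mu := by
  have h : 0 ≤ √13 := Real.sqrt_nonneg _
  unfold mu; linarith

theorem mu_irr : Irrational mu := by
  have h13 : Irrational (√13) := by
    have : Nat.Prime 13 := by norm_num
    simpa using this.irrational_sqrt
  have h2 : Irrational ((3 : ℚ) + √13) := h13.ratCast_add 3
  have h3 : Irrational (((3 : ℚ) + √13) / ((2 : ℚ) : ℝ)) := h2.div_ratCast (by norm_num)
  have e : (((3 : ℚ) + √13) / ((2 : ℚ) : ℝ) : ℝ) = mu := by unfold mu; norm_num
  rwa [e] at h3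

/-- The expanding eigenvector. -/
def vu : V2 := (mu, 1)

theorem FE_vu : FE vu = mu • vu := by
  rw [FE_apply]
  ext
  · change 3 * mu + 1 = mu * mu
    rw [mu_sq]
  · change mu = mu * 1
    ring

theorem FE_iter_add (n : ℕ) (z w : V2) : FE^[n] (z + w) = FE^[n] z + FE^[n] w := by
  induction n with
  | zero => rfl
  | succ n ih => rw [Function.iterate_succ_apply', Function.iterate_succ_apply',
      Function.iterate_succ_apply', ih, FE_add]

theorem FE_iter_vu (n : ℕ) (s : ℝ) : FE^[n] (s • vu) = (s * mu ^ n) • vu := by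
  induction n with
  | zero => simp
  | succ n ih =>
    rw [Function.iterate_succ_apply', ih, FE_smul, FE_vu, smul_smul, pow_succ, ← mul_assoc]

/-- The unstable line through any point is dense. -/
theorem line_dense (z : V2) : Dense {X : T2 | ∃ t : ℝ, X = E2 (z + t • vu)} := by
  have h0 : Dense (AddSubgroup.closure {mu, (1 : ℝ)} : Set ℝ) := by
    rw [dense_addSubgroupClosure_pair_iff, div_one]
    exact mu_irr
  intro Y
  obtain ⟨y, rfl⟩ := E2_surj Y
  rw [mem_closure_iff_nhds]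
  intro U hU
  have hU' : E2 ⁻¹' U ∈ 𝓝 y := E2_cont.continuousAt.preimage_mem_nhds hU
  obtain ⟨ε, hε, hball⟩ := Metric.mem_nhds_iff.1 hU'
  obtain ⟨x, hx, hxd⟩ := Metric.mem_closure_iff.1 (h0 (y.1 - z.1 - mu * (y.2 - z.2))) ε hε
  rw [SetLike.mem_coe, AddSubgroup.mem_closure_pair] at hx
  obtain ⟨m, n, hmn⟩ := hx
  refine ⟨E2 (z + (y.2 - z.2 + m) • vu), ?_, _, rfl⟩
  have e1 : E2 (z + (y.2 - z.2 + m) • vu) = E2 (z.1 + (y.2 - z.2) * mu + x, y.2) := by
    rw [E2_eq_iff]
    refine ⟨(-n, m), ?_⟩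
    ext
    · simp only [ofZ, vu, Prod.fst_add, Prod.smul_fst, smul_eq_mul]
      rw [← hmn]; simp only [zsmul_eq_mul]; push_cast; ring
    · simp only [ofZ, vu, Prod.snd_add, Prod.smul_snd, smul_eq_mul]
      ring
  rw [e1]
  apply hball
  rw [Metric.mem_ball, Prod.dist_eq, max_lt_iff]
  constructor
  · rw [Real.dist_eq] at *
    have : z.1 + (y.2 - z.2) * mu + x - y.1 = -(y.1 - z.1 - mu * (y.2 - z.2) - x) := by ring
    simp only
    rw [this, abs_neg]
    exact hxd
  · simpa using hε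

theorem FT_trans (U V : Set T2) (hU : IsOpen U) (hUn : U.Nonempty) (hV : IsOpen V)
    (hVn : V.Nonempty) : ∃ n : ℕ, ∃ x ∈ U, FT^[n] x ∈ V := by
  obtain ⟨p, hpU, m, hm, hp⟩ := FT_per_dense.inter_open_nonempty U hU hUn
  obtain ⟨z, rfl⟩ := E2_surj p
  obtain ⟨Y, hYV, t, rfl⟩ := (line_dense z).inter_open_nonempty V hV hVn
  -- a small segment of the unstable line lies in `U`
  have hc : Tendsto (fun s : ℝ => E2 (z + s • vu)) (𝓝 0) (𝓝 (E2 z)) := by
    have : Continuous fun s : ℝ => E2 (z + s • vu) := E2_cont.comp (by fun_prop)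
    have h := this.tendsto 0
    simpa using h
  have h1 : Tendsto (fun k : ℕ => t / (mu ^ m) ^ k) atTop (𝓝 0) := by
    have h2 : 1 < mu ^ m := one_lt_pow₀ mu_gt (by omega)
    exact (tendsto_pow_atTop_atTop_of_one_lt h2).const_div_atTop t
  obtain ⟨k, hk⟩ := ((hc.comp h1).eventually (hU.mem_nhds hpU)).exists
  refine ⟨m * k, _, hk, ?_⟩
  have hper : ∀ k : ℕ, E2 (FE^[m * k] z) = E2 z := by
    intro k
    rw [← FT_iter]
    exact (Function.IsPeriodicPt.mul_const (hp : Function.IsPeriodicPt FT m (E2 z)) k)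
  simp only [Function.comp_apply]
  rw [FT_iter, FE_iter_add, FE_iter_vu, E2_add, hper k, ← E2_add]
  have e : t / (mu ^ m) ^ k * mu ^ (m * k) = t := by
    rw [pow_mul]
    have : (mu ^ m) ^ k ≠ 0 := by
      have := mu_gt
      positivity
    field_simp
  rw [e]
  exact hYV

theorem FT_orbit : ∃ x, Dense (range fun n : ℕ => FT^[n] x) :=
  exists_dense_orbit FT FT.continuous FT_trans

/-! ### The perturbed maps -/

section Sys

variable {ε : ℝ} {β γ β' γ' : ℝ → ℝ}

theorem HH_surj (h : SP ε β γ) (h' : SP ε β' γ') : Function.Surjective (HH β β') :=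
  fun X => ⟨HH γ γ' X, HH_left h.symm h'.symm X⟩

theorem HH_semi (h : SP ε β γ) (h' : SP ε β' γ') (hε : ε ≤ 1 / 200) :
    Function.Semiconj (HH β β') FT (fP h h' hε) := fun X => (fP_HH h h' hε X).symm

theorem fP_per_dense (h : SP ε β γ) (h' : SP ε β' γ') (hε : ε ≤ 1 / 200) :
    Dense (Function.periodicPts (fP h h' hε)) := by
  have h1 : Dense (HH β β' '' Function.periodicPts FT) :=
    (HH_surj h h').denseRange.dense_image (HH_cont h h' hε) FT_per_dense
  refine Dense.mono ?_ h1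
  rintro _ ⟨X, ⟨n, hn, hX⟩, rfl⟩
  exact ⟨n, hn, hX.map (HH_semi h h' hε)⟩

theorem fP_orbit (h : SP ε β γ) (h' : SP ε β' γ') (hε : ε ≤ 1 / 200) :
    ∃ x, Dense (range fun n : ℕ => (fP h h' hε)^[n] x) := by
  obtain ⟨x, hx⟩ := FT_orbit
  refine ⟨HH β β' x, ?_⟩
  have h1 : Dense (HH β β' '' (range fun n : ℕ => FT^[n] x)) :=
    (HH_surj h h').denseRange.dense_image (HH_cont h h' hε) hx
  refine Dense.mono ?_ h1
  rintro _ ⟨_, ⟨n, rfl⟩, rfl⟩
  exact ⟨n, ((HH_semi h h' hε).iterate_right n x).symm⟩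

end Sys

/-! ### Axiom A and no cycles -/

theorem omega_univ {f : T2 ≃ₘ^1⟮I2, I2⟯ T2} (h : Dense (Function.periodicPts f)) :
    Omega f = univ := by
  apply eq_univ_of_univ_subset
  rw [← h.closure_eq]
  exact closure_minimal per_omega omega_closed

section Gen

variable {E : Type} [NormedAddCommGroup E] [NormedSpace ℝ E] {H : Type} [TopologicalSpace H]
  {I : ModelWithCorners ℝ E H} {M : Type} [TopologicalSpace M] [ChartedSpace H M]

theorem tan_symm_iter [IsManifold I 1 M] (f : M ≃ₘ^1⟮I, I⟯ M) (n : ℕ) (z : TangentBundle I M) :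
    (tangentMap I I (f⁻¹ : M ≃ₘ^1⟮I, I⟯ M))^[n] ((tangentMap I I f)^[n] z) = z := by
  have h1 : ∀ z, tangentMap I I (f⁻¹ : M ≃ₘ^1⟮I, I⟯ M) (tangentMap I I f z) = z := by
    intro z
    have h2 : tangentMap I I ((f⁻¹ : M ≃ₘ^1⟮I, I⟯ M) ∘ f) z
        = tangentMap I I (f⁻¹ : M ≃ₘ^1⟮I, I⟯ M) (tangentMap I I f z) :=
      tangentMap_comp_at z ((f⁻¹ : M ≃ₘ^1⟮I, I⟯ M).mdifferentiable one_ne_zero _)
        (f.mdifferentiable one_ne_zero _)
    rw [← h2]
    have h3 : ((f⁻¹ : M ≃ₘ^1⟮I, I⟯ M) : M → M) ∘ f = id := by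
      ext x; exact f.symm_apply_apply x
    rw [h3, tangentMap_id]
    rfl
  exact Function.LeftInverse.iterate (fun z => h1 z) n z

theorem hyp_of_anosov [IsManifold I 1 M] {f : M ≃ₘ^1⟮I, I⟯ M} (h : IsAnosov f) (Λ : Set M) :
    IsHyperbolicSet f Λ := by
  obtain ⟨N, Es, Eu, C, lam, hN, hC, hl0, hl1, hsp, -, -, his, hiu, hcs, hcu⟩ := h
  refine ⟨N, Es, Eu, C, lam, hN, hC, hl0, hl1, fun x _ => hsp x (mem_univ x),
    fun z _ => his z (mem_univ _), fun z _ => hiu z (mem_univ _),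
    fun x _ => hcs x (mem_univ x), ?_⟩
  intro x _ v hv n
  have hmem : ∀ n : ℕ, MemFam Eu ((tangentMap I I f)^[n] ⟨x, v⟩) := by
    intro n
    induction n with
    | zero => exact hv
    | succ n ih => rw [Function.iterate_succ_apply']; exact hiu _ (mem_univ _) ih
  have h1 := hcu ((tangentMap I I f)^[n] ⟨x, v⟩).1 (mem_univ _)
    ((tangentMap I I f)^[n] ⟨x, v⟩).2 (hmem n) n
  have h2 : (⟨((tangentMap I I f)^[n] ⟨x, v⟩).1, ((tangentMap I I f)^[n] ⟨x, v⟩).2⟩ :
    TangentBundle I M) = (tangentMap I I f)^[n] ⟨x, v⟩ := rfl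
  rw [h2, tan_symm_iter] at h1
  exact h1

end Gen

/-! ### Conclusion -/

/-- A diffeomorphism of the torus with dense periodic points and a dense forward orbit which is
Anosov satisfies Axiom A, and the whole torus is its only basic set. -/
theorem axiomA_of {f : T2 ≃ₘ^1⟮I2, I2⟯ T2} (h : IsAnosov f)
    (hp : Dense (Function.periodicPts f)) : AxiomA f :=
  ⟨hyp_of_anosov h _, fun x _ => hp x⟩

theorem spectral_of {f : T2 ≃ₘ^1⟮I2, I2⟯ T2} (hp : Dense (Function.periodicPts f))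
    (ho : ∃ x, Dense (range fun n : ℕ => f^[n] x)) :
    IsSpectralDecomposition f (fun _ : Fin 1 => (univ : Set T2)) where
  closed _ := isClosed_univ
  invariant _ := by rw [image_univ]; exact f.surjective.range_eq
  transitive _ := by
    obtain ⟨x, hx⟩ := ho
    refine ⟨x, mem_univ _, ?_⟩
    have h1 : Dense (range fun n : ℤ => (f ^ n) x) := by
      refine Dense.mono ?_ hx
      rintro _ ⟨n, rfl⟩
      refine ⟨n, ?_⟩
      have h2 : ∀ n : ℕ, (f ^ n) x = f^[n] x := by
        intro n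
        induction n with
        | zero => rfl
        | succ n ih => rw [pow_succ', d1_mul_apply, ih, Function.iterate_succ_apply']
      beta_reduce
      rw [zpow_natCast]
      exact h2 n
    rw [h1.closure_eq]
  disjoint i j hij := absurd (Subsingleton.elim i j) hij
  union := by rw [omega_univ hp]; exact iUnion_const _

/-- When the nonwandering set is the whole torus there is only one basic set. -/
theorem index_unique {f : T2 ≃ₘ^1⟮I2, I2⟯ T2} (hp : Dense (Function.periodicPts f)) {k : ℕ}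
    {Λ : Fin k → Set T2} (hΛ : IsSpectralDecomposition f Λ) (i j : Fin k) : i = j := by
  have key : ∀ i, Λ i = univ := by
    intro i
    have hc : IsClosed (⋃ j ∈ {j : Fin k | j ≠ i}, Λ j) :=
      (Set.toFinite _).isClosed_biUnion fun j _ => hΛ.closed j
    have he : (⋃ j ∈ {j : Fin k | j ≠ i}, Λ j) = (Λ i)ᶜ := by
      ext x
      simp only [mem_iUnion, mem_ofPred_eq, mem_compl_iff]
      constructor
      · rintro ⟨j, hj, hx⟩ hxi
        exact (disjoint_left.1 (hΛ.disjoint j i hj)) hx hxi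
      · intro hx
        have h1 : x ∈ ⋃ j, Λ j := by rw [hΛ.union, omega_univ hp]; exact mem_univ x
        obtain ⟨j, hj⟩ := mem_iUnion.1 h1
        exact ⟨j, fun h => hx (h ▸ hj), hj⟩
    rw [he] at hc
    have hclopen : IsClopen (Λ i) := ⟨hΛ.closed i, isClosed_compl_iff.1 hc⟩
    obtain ⟨x, hx, -⟩ := hΛ.transitive i
    exact hclopen.eq_univ ⟨x, hx⟩
  by_contra hij
  have h1 := hΛ.disjoint i j hij
  rw [key i, key j, disjoint_self] at h1
  exact (univ_nonempty (α := T2)).ne_empty h1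

end Pool.Agent.Helper23.AxA
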